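import Mathlib
import Pool.Agent.MP_9a42a6_lc.Mg.Main

set_option autoImplicit false

open Cardinal

universe u

namespace Pool.Agent.Results.MP_9a42a6_lc.MonoSet

/-- Let `κ` be an uncountable cardinal with `2 ^ μ < 2 ^ κ` for all `μ < κ`, and let `c` be an
almost Delta-regressive colouring of the unordered pairs of functions `κ → 2` with colours in `κ`
(here `δ` is the least point of disagreement of `x` and `y`; the values of `c` on the diagonal
are unconstrained and play no role). Then for every cardinal `ν < κ` there is a monochromatic set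
with more than `ν` elements. The case `ν = 2` gives a monochromatic triple. -/
theorem result (κ : Cardinal.{u}) (hκ : ℵ₀ < κ)
    (h2 : ∀ μ : Cardinal.{u}, μ < κ → (2 : Cardinal.{u}) ^ μ < (2 : Cardinal.{u}) ^ κ)
    (c : Sym2 (κ.ord.ToType → Bool) → κ.ord.ToType)
    (hc : ∃ μ : κ.ord.ToType, ∀ (x y : κ.ord.ToType → Bool) (δ : κ.ord.ToType),
      IsLeast {i | x i ≠ y i} δ → c s(x, y) < max δ μ)
    (ν : Cardinal.{u}) (hν : ν < κ) :
    ∃ Y : Set (κ.ord.ToType → Bool), ν < #Y ∧
      ∃ γ : κ.ord.ToType, ∀ x ∈ Y, ∀ y ∈ Y, x ≠ y → c s(x, y) = γ := by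
  obtain ⟨μ, hμ⟩ := hc
  exact Pool.Agent.MP_9a42a6_lc.main κ hκ h2 c μ hμ ν hν

end Pool.Agent.Results.MP_9a42a6_lc.MonoSet
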